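import Mathlib
import Pool.Agent.Lib.JC.Final

/-!
# MP_e6daed_lc : an infinitely renormalizable real quadratic Julia set which is not polynomial-time
computable

Negative answer to Q1.  The definitions are in `Pool/Agent/Lib/JC/Pub.lean` and
`Pool/Agent/Lib/JC/Pub2.lean`.
-/

namespace Pool.Agent.Results.MP_e6daed_lc.NotPolyTime

open JC

/-- For every countable set `TT` of time bounds and every countable set `Z` of real numbers there is a
real number `c` in `(-2, 0)`, not in `Z`, such that `z ^ 2 + c` is infinitely renormalizable, its Julia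
set is not polynomial-time computable with an oracle for `c`, and moreover, already with the oracle
which returns the binary truncations of `c`, for every oracle Turing machine `M` and every `T ∈ TT`
there are infinitely many precisions `n` with a dyadic point `z` of precision `2 ^ -n`, `|z| ≤ 3`, at which
`M` does not give a correct answer at total cost at most `T n`. -/
theorem result (TT : Set (ℕ → ℕ)) (hTT : TT.Countable) (Z : Set ℝ) (hZ : Z.Countable) :
    ∃ c : ℝ, -2 < c ∧ c < 0 ∧ c ∉ Z ∧ InfinitelyRenormalizable (c : ℂ) ∧ ¬ PolyTimeJulia c ∧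
      OracleFor c (truncOracle c) ∧
      ∀ M : OTM, ∀ T ∈ TT, ∀ N : ℕ, ∃ n ≥ N, ∃ x y : ℤ, ‖dpt n x y‖ ≤ 3 ∧
        ¬ CorrectIn M (truncOracle c) (julia (c : ℂ)) (T n) n x y :=
  JC.main TT hTT Z hZ

end Pool.Agent.Results.MP_e6daed_lc.NotPolyTime
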